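import Pool.Agent.Lib.MP_1d0d1b_gt.Main

open Pool.Agent.Lib.MP_1d0d1b_gt

theorem Pool.Agent.Results.MP_1d0d1b_gt.BingTower.result :
    ∃ (K : ℝ → V3) (L : Fin 2 → ℝ → V3), IsKnot K ∧ ArfOne K ∧ IsBingDouble K L ∧
      ∀ n : ℕ, Nonempty (FramedTower L n) :=
  Pool.Agent.Lib.MP_1d0d1b_gt.main
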